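import Pool.Agent.TH107.LB.AA

/-!
# Roots in groups which are virtually residually finite `p`-groups
-/

set_option autoImplicit false

namespace Pool.Agent.Q91.VR

open Pool.Agent.TH107.LB

universe u v

lemma eq_of_coprime {G : Type*} [Group G] {a b : ℕ} (hab : a.Coprime b) {x y : G}
    (ha : x ^ a = y ^ a) (hb : x ^ b = y ^ b) : x = y := by
  have h := Nat.gcd_eq_gcd_ab a b
  rw [hab] at h
  have h1 : ∀ z : G, z = (z ^ a) ^ (Nat.gcdA a b) * (z ^ b) ^ (Nat.gcdB a b) := by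
    intro z
    rw [← zpow_natCast z a, ← zpow_natCast z b, ← zpow_mul, ← zpow_mul, ← zpow_add, ← h]
    simp
  rw [h1 x, h1 y, ha, hb]

/-- the roots of order prime to some `m` are unique -/
theorem RP.root {p : ℕ} (hp : p.Prime) {H : Type u} [Group H] (h : RP p H) :
    ∃ m : ℕ, 0 < m ∧ ∀ l : ℕ, l.Coprime m → ∀ x y : H, x ^ l = y ^ l → x = y := by
  obtain ⟨N, hN, hfi, hsep⟩ := h
  have hi : 0 < N.index := Nat.pos_of_ne_zero hfi.index_ne_zero
  refine ⟨N.index * p, Nat.mul_pos hi hp.pos, fun l hl x y hxy => ?_⟩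
  have hl1 : l.Coprime N.index := hl.coprime_mul_right_right
  have hl2 : l.Coprime p := hl.coprime_mul_left_right
  refine eq_of_coprime hl1 hxy ?_
  have ha : x ^ N.index ∈ N := Subgroup.pow_index_mem N x
  have hb : y ^ N.index ∈ N := Subgroup.pow_index_mem N y
  have hab : (x ^ N.index) ^ l = (y ^ N.index) ^ l := by
    rw [← pow_mul, ← pow_mul, mul_comm, pow_mul, pow_mul, hxy]
  rw [← inv_mul_eq_one]
  by_contra hne
  obtain ⟨K, hK, hKf, ⟨e, he⟩, hgK⟩ := hsep _ hne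
  apply hgK
  rw [← QuotientGroup.eq_one_iff]
  have h3 : (QuotientGroup.mk (x ^ N.index) : H ⧸ K) = QuotientGroup.mk (y ^ N.index) := by
    refine eq_of_coprime (a := l) (b := p ^ e) (Nat.Coprime.pow_right e hl2) ?_ ?_
    · rw [← QuotientGroup.mk_pow, ← QuotientGroup.mk_pow, hab]
    · rw [← QuotientGroup.mk_pow, ← QuotientGroup.mk_pow, (QuotientGroup.eq_one_iff _).2 (he _ ha),
        (QuotientGroup.eq_one_iff _).2 (he _ hb)]
  rw [QuotientGroup.mk_mul, QuotientGroup.mk_inv, h3, inv_mul_cancel]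

/-- infinitely `p`-divisible elements have finite order -/
theorem RP.no_div {p : ℕ} {H : Type u} [Group H] (h : RP p H) {g : H}
    (hg : ∀ k : ℕ, ∃ x : H, x ^ p ^ k = g) : ∃ m : ℕ, 0 < m ∧ g ^ m = 1 := by
  obtain ⟨N, hN, hfi, hsep⟩ := h
  refine ⟨N.index, Nat.pos_of_ne_zero hfi.index_ne_zero, ?_⟩
  by_contra hne
  obtain ⟨K, hK, hKf, ⟨e, he⟩, hgK⟩ := hsep _ hne
  apply hgK
  obtain ⟨x, hx⟩ := hg e
  have h1 := he _ (Subgroup.pow_index_mem N x)
  rwa [← pow_mul, mul_comm, pow_mul, hx] at h1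

/-- infinitely many good primes -/
theorem good_infinite {H : Type u} [Group H] (h : {p : ℕ | p.Prime ∧ RP p H}.Infinite) :
    {p : ℕ | p.Prime ∧ (∀ x y : H, x ^ p = y ^ p → x = y) ∧
      ∀ g : H, (∀ m : ℕ, 0 < m → g ^ m ≠ 1) → ∃ k : ℕ, ∀ x : H, x ^ p ^ k ≠ g}.Infinite := by
  obtain ⟨p0, hp0, h0⟩ := h.nonempty
  obtain ⟨m, hm, hroot⟩ := RP.root hp0 h0
  have hfin : {p : ℕ | p ∣ m}.Finite :=
    (Set.finite_Iic m).subset fun p hp => Nat.le_of_dvd hm hp
  refine (h.sdiff hfin).mono ?_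
  rintro p ⟨⟨hp, hR⟩, hpm⟩
  refine ⟨hp, hroot p ((Nat.Prime.coprime_iff_not_dvd hp).2 hpm), fun g hg => ?_⟩
  by_contra hcon
  push Not at hcon
  obtain ⟨n, hn, h1⟩ := RP.no_div hR hcon
  exact hg n hn h1

/-- almost all primes are infinitely many -/
lemma infinite_of_finset {P : ℕ → Prop} (E : Finset ℕ) (h : ∀ p : ℕ, p.Prime → p ∉ E → P p) :
    {p : ℕ | p.Prime ∧ P p}.Infinite := by
  refine (Nat.infinite_setOfPred_prime.sdiff E.finite_toSet).mono ?_
  rintro p ⟨hp, hpE⟩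
  exact ⟨hp, h p hp hpE⟩

end Pool.Agent.Q91.VR
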