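import Pool.Agent.Q91.VR.Basic

/-!
# Groups of automorphisms of algebras and of linear groups
-/

set_option autoImplicit false

namespace Pool.Agent.Q91.VR

open Pool.Agent.TH107.LB

universe u v

/-- `Γ` is residually a finite `p`-group. -/
def ResP (p : ℕ) (Γ : Type u) [Group Γ] : Prop :=
  ∀ g : Γ, g ≠ 1 → ∃ (F : Type u) (_ : Group F) (f : Γ →* F), Finite F ∧ IsPGroup p F ∧ f g ≠ 1

/-- `Γ` has a subgroup of finite index which is residually a finite `p`-group. -/
def VRes (p : ℕ) (Γ : Type u) [Group Γ] : Prop :=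
  ∃ N : Subgroup Γ, N.FiniteIndex ∧ ResP p N

/-- (a) Each finitely generated subgroup of `G` is virtually residually a finite `p`-group, for
infinitely many primes `p` (which may depend on the subgroup). -/
def LocVRes (G : Type u) [Group G] : Prop :=
  ∀ H : Subgroup G, H.FG → {p : ℕ | p.Prime ∧ VRes p H}.Infinite

/-- `G` acts faithfully by automorphisms on the algebra `B` over `L`. -/
def FaithfulOnAlgebra (G : Type u) [Group G] (L B : Type) [Field L] [CommRing B] [Algebra L B] :
    Prop := ∃ φ : G →* (B ≃ₐ[L] B), Function.Injective φ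

/-- `G` acts faithfully by automorphisms on the group `Γ`. -/
def FaithfulOnGroup (G : Type u) [Group G] (Γ : Type) [Group Γ] : Prop :=
  ∃ φ : G →* MulAut Γ, Function.Injective φ

/-- (b) `G` acts faithfully by automorphisms on a finitely generated commutative algebra `B` over a
field `L` of characteristic zero. -/
def ActsOnAlgebra (G : Type u) [Group G] : Prop :=
  ∃ (L B : Type) (_ : Field L) (_ : CommRing B) (_ : Algebra L B),
    CharZero L ∧ Algebra.FiniteType L B ∧ FaithfulOnAlgebra G L B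

/-- (c) `G` acts faithfully by automorphisms on a finitely generated linear group `Γ` over a field
`L` of characteristic zero. -/
def ActsOnLinear (G : Type u) [Group G] : Prop :=
  ∃ (L : Type) (_ : Field L) (N : ℕ) (Γ : Subgroup (GL (Fin N) L)),
    CharZero L ∧ Γ.FG ∧ FaithfulOnGroup G Γ

/-- `G` has one of the properties (a), (b), (c). -/
def Covered (G : Type u) [Group G] : Prop := LocVRes G ∨ ActsOnAlgebra G ∨ ActsOnLinear G

theorem VRes.rp {p : ℕ} (hp : p.Prime) {Γ : Type u} [Group Γ] (h : VRes p Γ) : RP p Γ := by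
  classical
  obtain ⟨N, hN, hsep⟩ := h
  haveI := Fact.mk hp
  refine ⟨N.normalCore, inferInstance, inferInstance, fun g hg => ?_⟩
  by_cases hgC : g ∈ N.normalCore
  swap
  · exact ⟨N.normalCore, inferInstance, inferInstance, ⟨0, fun h hh => by simpa using hh⟩, hgC⟩
  obtain ⟨F, _, f, _, hF, hfg⟩ := hsep ⟨g, N.normalCore_le hgC⟩ (by
    intro h
    exact hg (congrArg Subtype.val h))
  obtain ⟨e, he⟩ := (IsPGroup.iff_card).1 hF
  have hkf : f.ker.FiniteIndex := Subgroup.finiteIndex_ker f
  have h1 : (f.ker.map N.subtype).FiniteIndex := by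
    refine ⟨?_⟩
    rw [Subgroup.index_map_subtype]
    exact Nat.mul_ne_zero hkf.index_ne_zero hN.index_ne_zero
  refine ⟨(f.ker.map N.subtype ⊓ N.normalCore).normalCore, inferInstance, inferInstance,
    ⟨e, fun h hh b => ?_⟩, fun h => ?_⟩
  · have h2 : b * h * b⁻¹ ∈ N.normalCore := Subgroup.Normal.conj_mem inferInstance h hh b
    have h3 : b * h ^ p ^ e * b⁻¹ = (b * h * b⁻¹) ^ p ^ e := conj_pow.symm
    rw [h3]
    refine ⟨⟨⟨b * h * b⁻¹, N.normalCore_le h2⟩ ^ p ^ e, ?_, rfl⟩, N.normalCore.pow_mem h2 _⟩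
    change f _ = 1
    rw [map_pow, ← he, pow_card_eq_one']
  · obtain ⟨⟨y, hy, hyg⟩, _⟩ := Subgroup.normalCore_le _ h
    apply hfg
    have h2 : y = ⟨g, N.normalCore_le hgC⟩ := Subtype.ext hyg
    rw [← h2]
    exact hy

theorem Covered.local {G : Type u} [Group G] (h : Covered G) (H : Subgroup G) (hH : H.FG) :
    {p : ℕ | p.Prime ∧ RP p H}.Infinite := by
  rcases h with h | ⟨L, B, _, _, _, _, _, φ, hφ⟩ | ⟨L, _, N, Γ, _, hΓ, φ, hφ⟩
  · refine (h H hH).mono ?_
    rintro p ⟨hp, hv⟩
    exact ⟨hp, hv.rp hp⟩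
  · have hFG : (H.map φ).FG := by
      classical
      obtain ⟨S, hS⟩ := hH
      exact ⟨S.image φ, by rw [Finset.coe_image, ← MonoidHom.map_closure, hS]⟩
    obtain ⟨A, _, hAf, f, htf, hf⟩ := exists_model (H.map φ) hFG
    obtain ⟨E, hE⟩ := nonunit_assoc A htf
    apply infinite_of_finset E
    intro p hp hpE
    exact ((RP.ringAut' A (hE p hp hpE)).sub f hf).sub
      (Subgroup.equivMapOfInjective H φ hφ).toMonoidHom (Subgroup.equivMapOfInjective H φ hφ).injective
  · obtain ⟨E, hE⟩ := RP.linear Γ hΓ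
    have hFG : Group.FG Γ := (Group.fg_iff_subgroup_fg Γ).2 hΓ
    apply infinite_of_finset E
    intro p hp hpE
    exact ((hE p hp hpE).aut hp).sub (φ.comp H.subtype) (hφ.comp H.subtype_injective)

/-- infinitely many good primes, for torsion-free groups -/
theorem Covered.good {G : Type u} [Group G] (h : Covered G)
    (htf : ∀ g : G, ∀ m : ℕ, 0 < m → g ^ m = 1 → g = 1) (H : Subgroup G) (hH : H.FG) :
    {p : ℕ | p.Prime ∧ (∀ x y : H, x ^ p = y ^ p → x = y) ∧
      ∀ g : H, g ≠ 1 → ∃ k : ℕ, ∀ x : H, x ^ p ^ k ≠ g}.Infinite := by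
  refine (good_infinite (h.local H hH)).mono ?_
  rintro p ⟨hp, h1, h2⟩
  refine ⟨hp, h1, fun g hg => h2 g fun m hm hc => hg (Subtype.ext (htf g.1 m hm ?_))⟩
  simpa using congrArg Subtype.val hc

end Pool.Agent.Q91.VR
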