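import Pool.Agent.Q91.VR.Mixed
import Pool.Agent.Q91.PP.Over

/-!
# Detected elements of infinite order
-/

set_option autoImplicit false

namespace Pool.Agent.Q91.VR

universe u w

/-- `g` has a nontrivial image under an action of `H` by increasing piecewise projective
homeomorphisms of the line. -/
def DetectedPP {H : Type u} [Group H] (g : H) : Prop :=
  ∃ ρ : H →* (ℝ ≃o ℝ), (∀ x, IsPiecewiseProjective (ρ x)) ∧ ρ g ≠ 1

/-- `g` has an image of infinite order under a linear representation of `H` in characteristic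
zero. -/
def DetectedLin {H : Type u} [Group H] (g : H) : Prop :=
  ∃ (K : Type) (_ : Field K) (N : ℕ) (φ : H →* GL (Fin N) K), CharZero K ∧
    ∀ m : ℕ, 0 < m → φ g ^ m ≠ 1

/-- For infinitely many primes `p` the element `g` has an image of infinite order under a
homomorphism from `H` to a virtually residually finite `p`-group. -/
def DetectedVR {H : Type u} [Group H] (g : H) : Prop :=
  {p : ℕ | p.Prime ∧ ∃ (Γ : Type u) (_ : Group Γ) (φ : H →* Γ), VRes p Γ ∧
    ∀ m : ℕ, 0 < m → φ g ^ m ≠ 1}.Infinite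

/-- `g` is detected in one of these three ways. -/
def Detected {H : Type u} [Group H] (g : H) : Prop := DetectedPP g ∨ DetectedLin g ∨ DetectedVR g

theorem inf_primes {H : Type u} [Group H] [Group.FG H] {g : H} (hg : Detected g) :
    {p : ℕ | p.Prime ∧ ∀ j, 1 ≤ j → ¬ IsConj g (g ^ p ^ j)}.Infinite := by
  rcases hg with ⟨ρ, h1, h2⟩ | ⟨K, _, N, φ, _, h1⟩ | h
  · exact Pool.Agent.Q91.PP.inf_primes.{u, 0} (Or.inl ⟨ρ, h1, h2⟩)
  · exact Pool.Agent.Q91.PP.inf_primes.{u, 0} (Or.inr ⟨K, inferInstance, inferInstance, N, φ, h1⟩)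
  · refine h.mono ?_
    rintro p ⟨hp, Γ, _, φ, hv, h1⟩
    refine ⟨hp, fun j hj hc => ?_⟩
    obtain ⟨m, hm, h2⟩ := RP.no_div (hv.rp hp) (g := φ g) (fun k => by
      obtain ⟨x, hx⟩ := Pool.Agent.Q91.PP.divisible_of_conj hj hc k
      exact ⟨φ x, by rw [← map_pow, hx]⟩)
    exact h1 m hm h2

end Pool.Agent.Q91.VR
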