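import Pool.Agent.Q91.VR.Class
import Pool.Agent.Q91.PP.Root

/-!
# Groups of piecewise projective homeomorphisms, and of automorphisms of algebras and linear groups
-/

set_option autoImplicit false

namespace Pool.Agent.Q91.VR

universe u

/-- `f` is piecewise projective: there are finitely many real matrices with nonzero determinant
such that `f` is given by one of the corresponding maps `z ↦ (α z + β) / (γ z + δ)` near `-∞` and
to the right of each point of the line. -/
def IsPiecewiseProjective (f : ℝ → ℝ) : Prop :=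
  ∃ S : Finset (Matrix (Fin 2) (Fin 2) ℝ), (∀ M ∈ S, M.det ≠ 0) ∧
    (∃ M ∈ S, ∃ b : ℝ, ∀ z < b, f z * (M 1 0 * z + M 1 1) = M 0 0 * z + M 0 1) ∧
    ∀ a : ℝ, ∃ M ∈ S, ∃ b > a, ∀ z, a < z → z < b →
      f z * (M 1 0 * z + M 1 1) = M 0 0 * z + M 0 1

/-- `G` has finitely many actions by increasing piecewise projective homeomorphisms of the line and
a linear representation in characteristic zero which together separate the elements of `G`. -/
def ProjectiveLinear (G : Type u) [Group G] : Prop :=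
  ∃ (k : ℕ) (ρ : Fin k → G →* (ℝ ≃o ℝ)) (K : Type) (_ : Field K) (N : ℕ) (φ : G →* GL (Fin N) K),
    CharZero K ∧ (∀ i x, IsPiecewiseProjective (ρ i x)) ∧
    ∀ g : G, φ g = 1 → (∀ i, ρ i g = 1) → g = 1

theorem ProjectiveLinear.good {G : Type u} [Group G] (h : ProjectiveLinear G)
    (htf : ∀ g : G, ∀ m : ℕ, 0 < m → g ^ m = 1 → g = 1) (H : Subgroup G) (hH : H.FG) :
    {p : ℕ | p.Prime ∧ (∀ x y : H, x ^ p = y ^ p → x = y) ∧
      ∀ g : H, g ≠ 1 → ∃ k : ℕ, ∀ x : H, x ^ p ^ k ≠ g}.Infinite := by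
  obtain ⟨k, ρ, K, _, N, φ, _, hρ, hφ⟩ := h
  have hfg : Group.FG H := (Group.fg_iff_subgroup_fg H).2 hH
  have hbad := Pool.Agent.Q91.PP.good_primes (H := H)
    (by
      intro g m hm hg
      apply Subtype.ext
      exact htf g.1 m hm (by simpa using congrArg Subtype.val hg))
    (fun i => (ρ i).comp H.subtype) (fun i x => hρ i x) (φ.comp H.subtype)
    (by
      intro g h1 h2
      exact Subtype.ext (hφ g.1 h1 h2))
  refine (Nat.infinite_setOfPred_prime.sdiff hbad).mono ?_
  rintro p ⟨hp, hg⟩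
  have hgood : Pool.Agent.H23R2.GoodPrime H p := by
    by_contra hc
    exact hg ⟨hp, hc⟩
  exact ⟨hp, hgood.inj, hgood.div⟩

/-- `G` has the property `ProjectiveLinear` or `Covered`. -/
def Mixed (G : Type u) [Group G] : Prop := ProjectiveLinear G ∨ Covered G

theorem Mixed.good {G : Type u} [Group G] (h : Mixed G)
    (htf : ∀ g : G, ∀ m : ℕ, 0 < m → g ^ m = 1 → g = 1) (H : Subgroup G) (hH : H.FG) :
    {p : ℕ | p.Prime ∧ (∀ x y : H, x ^ p = y ^ p → x = y) ∧
      ∀ g : H, g ≠ 1 → ∃ k : ℕ, ∀ x : H, x ^ p ^ k ≠ g}.Infinite :=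
  h.elim (fun h => h.good htf H hH) (fun h => h.good htf H hH)

end Pool.Agent.Q91.VR
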